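import Pool.Agent.Q29.LG.Idem
import Pool.Agent.Q29.LG.Free

/-!
# A height 1 condition with the local-global property for idempotent algebras only

The definitions (algebras, term operations, strong Maltsev conditions of height 1, satisfaction on
a set of tuples, the local-global property and the condition `HM`) are in
`Pool.Agent.Q29.LG.Defs`.  The condition `HM` is
`p(x,y,y) ≈ p(x,x,x)`, `p(x,x,y) ≈ q(x,y,y)`, `q(x,x,y) ≈ q(y,y,y)`.
-/

namespace Pool.Agent.Results.MP_c8915d_al.IdempotentNotEnough

open Q29.LG

universe u v u' v'

/-- The strong Maltsev condition `HM` of height 1 has the local-global property for idempotent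
algebras, but it does not have the local-global property. -/
theorem result : HasLGP HM Alg.IsIdempotent.{u, v} ∧ ¬ HasLGP HM (fun _ : Alg.{u', v'} => True) :=
  ⟨hasLGP_idempotent, not_hasLGP⟩

end Pool.Agent.Results.MP_c8915d_al.IdempotentNotEnough
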